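import Pool.Agent.H99.PC.Cnt

/-!
MP_2a11a1_nt (PSW / Selfridge): no linear family of counterexamples.

n = c * prod p_j with p_j = a_j t + b_j prime.  For each i put
  S_i = c * prod_j (a_i b_j - a_j (b_i - 1)) - a_i ^ k,
  T_i = c * prod_j (a_i b_j - a_j (b_i + 1)) + a_i ^ k.
The order of 2 modulo p_i divides p_i - 1 and n - 1, hence S_i.  The rank of apparition of p_i divides
p_i - 1 or p_i + 1, and n + 1, hence S_i + 2 a_i ^ k or T_i.  If S_i = T_i = 0 for all i, then c = 1 and all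
(a_i, b_i) are equal.
-/

namespace Pool.Agent.H49.PSW

open Finset

private theorem dvd_prod_sub {ι : Type*} (s : Finset ι) (d : ℤ) (x y : ι → ℤ)
    (h : ∀ i ∈ s, d ∣ x i - y i) : d ∣ ∏ i ∈ s, x i - ∏ i ∈ s, y i := by
  classical
  induction s using Finset.induction_on with
  | empty => simp
  | insert j s hj ih =>
    rw [prod_insert hj, prod_insert hj]
    have h1 : x j * ∏ i ∈ s, x i - y j * ∏ i ∈ s, y i =
        (x j - y j) * ∏ i ∈ s, x i + y j * (∏ i ∈ s, x i - ∏ i ∈ s, y i) := by ring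
    rw [h1]
    exact dvd_add ((h j (mem_insert_self _ _)).mul_right _)
      ((ih fun i hi => h i (mem_insert_of_mem hi)).mul_left _)

/-- `a_i ^ k n` is congruent to `c ∏ (a_i b_j - a_j β)` modulo each divisor of `a_i t + β`. -/
theorem cong {k : ℕ} (c : ℤ) (a b p : Fin k → ℤ) (t d β : ℤ) (i : Fin k)
    (hp : ∀ j, p j = a j * t + b j) (hd : d ∣ a i * t + β) :
    d ∣ a i ^ k * (c * ∏ j, p j) - c * ∏ j, (a i * b j - a j * β) := by
  have h1 : d ∣ ∏ j, (a i * p j) - ∏ j, (a i * b j - a j * β) := by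
    refine dvd_prod_sub _ _ _ _ fun j _ => ?_
    have h2 : a i * p j - (a i * b j - a j * β) = a j * (a i * t + β) := by
      rw [hp j]
      ring
    rw [h2]
    exact hd.mul_left _
  rw [prod_mul_distrib, prod_const, card_univ, Fintype.card_fin] at h1
  have h3 : a i ^ k * (c * ∏ j, p j) - c * ∏ j, (a i * b j - a j * β) =
      c * (a i ^ k * ∏ j, p j - ∏ j, (a i * b j - a j * β)) := by ring
  rw [h3]
  exact h1.mul_left _

/-- If all `S_i` and `T_i` vanish, then `c = 1` and all pairs are equal. -/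
theorem rigid {k : ℕ} (c : ℤ) (a b : Fin k → ℤ) (hc : 1 ≤ c) (ha : ∀ i, 1 ≤ a i) (i₀ : Fin k)
    (hS : ∀ i, c * ∏ j, (a i * b j - a j * (b i - 1)) - a i ^ k = 0)
    (hT : ∀ i, c * ∏ j, (a i * b j - a j * (b i + 1)) + a i ^ k = 0) :
    c = 1 ∧ ∀ i j, a i = a j ∧ b i = b j := by
  have : Nonempty (Fin k) := ⟨i₀⟩
  obtain ⟨i, hi⟩ := Finite.exists_max (fun j : Fin k => (1 - (b j : ℚ)) / (a j : ℚ))
  have ha' : ∀ j, (0 : ℚ) < a j := fun j => by
    have := ha j
    have h1 : (1 : ℚ) ≤ a j := by exact_mod_cast this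
    linarith
  have he : ∀ j, a i ≤ a i * b j - a j * (b i - 1) := by
    intro j
    have h1 := hi j
    rw [div_le_div_iff₀ (ha' j) (ha' i)] at h1
    have h2 : (1 - b j) * a i ≤ (1 - b i) * a j := by exact_mod_cast h1
    nlinarith
  have hpos : (0 : ℤ) < a i := by have := ha i; omega
  have hpow : (0 : ℤ) < a i ^ k := pow_pos hpos k
  have hle : a i ^ k ≤ ∏ j, (a i * b j - a j * (b i - 1)) := by
    have h1 : ∏ _j : Fin k, a i ≤ ∏ j, (a i * b j - a j * (b i - 1)) :=
      prod_le_prod (fun j _ => hpos.le) fun j _ => he j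
    rwa [prod_const, card_univ, Fintype.card_fin] at h1
  have hSi := hS i
  have hc1 : c = 1 := by
    by_contra hne
    have h2 : 2 ≤ c := by omega
    nlinarith
  subst hc1
  have heq : ∀ j, a i * b j - a j * (b i - 1) = a i := by
    intro j
    by_contra hne
    have hlt : a i < a i * b j - a j * (b i - 1) := lt_of_le_of_ne (he j) (Ne.symm hne)
    have h1 : ∏ _j : Fin k, a i < ∏ j, (a i * b j - a j * (b i - 1)) :=
      prod_lt_prod (fun j _ => hpos) (fun j _ => he j) ⟨j, mem_univ j, hlt⟩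
    rw [prod_const, card_univ, Fintype.card_fin] at h1
    linarith
  have hcomm : ∀ j l, a l * (b j - 1) = a j * (b l - 1) := by
    intro j l
    have h1 : a i * (b j - 1) = a j * (b i - 1) := by linarith [heq j]
    have h2 : a i * (b l - 1) = a l * (b i - 1) := by linarith [heq l]
    have h3 : a i * (a l * (b j - 1)) = a i * (a j * (b l - 1)) := by
      calc a i * (a l * (b j - 1)) = a l * (a i * (b j - 1)) := by ring
        _ = a j * (a l * (b i - 1)) := by rw [h1]; ring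
        _ = a i * (a j * (b l - 1)) := by rw [← h2]; ring
    exact mul_left_cancel₀ hpos.ne' h3
  obtain ⟨l, hl⟩ := Finite.exists_min a
  have hlpos : (0 : ℤ) < a l := by have := ha l; omega
  have hg : ∀ j, a l * b j - a j * (b l + 1) = -(2 * a j - a l) := by
    intro j
    have := hcomm j l
    linarith
  have hTl := hT l
  have h5 : ∏ j, (a l * b j - a j * (b l + 1)) = ∏ j, (-(2 * a j - a l)) :=
    prod_congr rfl fun j _ => hg j
  rw [h5] at hTl
  have h6 : |∏ j, (-(2 * a j - a l))| = ∏ j, (2 * a j - a l) := by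
    rw [abs_prod]
    refine prod_congr rfl fun j _ => ?_
    rw [abs_neg, abs_of_nonneg]
    have := hl j
    linarith
  have h7 : ∏ j, (-(2 * a j - a l)) = -(a l ^ k) := by linarith
  have h8 : ∏ j, (2 * a j - a l) = a l ^ k := by
    rw [← h6, h7, abs_neg, abs_of_nonneg (pow_pos hlpos k).le]
  have hall : ∀ j, a j = a l := by
    intro j
    by_contra hne
    have hlt : a l < 2 * a j - a l := by
      have := lt_of_le_of_ne (hl j) (Ne.symm hne)
      linarith
    have h1 : ∏ _j : Fin k, a l < ∏ j, (2 * a j - a l) :=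
      prod_lt_prod (fun j _ => hlpos) (fun j _ => by have := hl j; linarith)
        ⟨j, mem_univ j, hlt⟩
    rw [prod_const, card_univ, Fintype.card_fin] at h1
    linarith
  refine ⟨rfl, fun x y => ⟨by rw [hall x, hall y], ?_⟩⟩
  have h9 := hcomm x y
  rw [hall x, hall y] at h9
  have h10 := mul_left_cancel₀ hlpos.ne' h9
  linarith

/-- The bound for a prime with the order of `2` dividing a nonzero constant. -/
theorem ord_bound (p : ℕ) (S : ℤ) (hS : S ≠ 0) (h : (Pool.Agent.H99.PC.ko p : ℤ) ∣ S) :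
    p ≤ 2 ^ S.natAbs := by
  have h1 : Pool.Agent.H99.PC.ko p ∣ S.natAbs := Int.natCast_dvd.1 h
  rw [Pool.Agent.H99.PC.ko_dvd_iff] at h1
  have h2 : 0 < S.natAbs := Int.natAbs_pos.2 hS
  have h3 : 2 ^ 1 ≤ 2 ^ S.natAbs := Nat.pow_le_pow_right (by norm_num) h2
  have h4 := Nat.le_of_dvd (by omega) h1
  omega

/-- The bound for a prime with the rank of apparition dividing a nonzero constant. -/
theorem rank_bound (p : ℕ) (hp : p.Prime) (T : ℤ) (hT : T ≠ 0)
    (h : (Pool.Agent.H99.PC.zr p : ℤ) ∣ T) : p ≤ 2 ^ T.natAbs := by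
  have h1 : Pool.Agent.H99.PC.zr p ∣ T.natAbs := Int.natCast_dvd.1 h
  rw [Pool.Agent.H99.PC.zr_spec p hp] at h1
  have h2 : 0 < T.natAbs := Int.natAbs_pos.2 hT
  exact (Nat.le_of_dvd (Nat.fib_pos.2 h2) h1).trans (Pool.Agent.H99.PC.fib_le_two_pow _)

/-- The size of `c ∏ (a_i b_j - a_j β) ± a_i ^ k`. -/
theorem size {k : ℕ} (c M : ℕ) (a b : Fin k → ℤ) (hc : 1 ≤ c) (ha : ∀ i, 1 ≤ a i ∧ a i ≤ M ∧ |b i| ≤ M)
    (i : Fin k) (β e : ℤ) (hβ : |β - b i| ≤ 1) (he : |e| ≤ 1) :
    (c * ∏ j, (a i * b j - a j * β) + e * a i ^ k).natAbs ≤ 2 * c * (3 * M ^ 2) ^ k := by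
  have hM : (1 : ℤ) ≤ M := le_trans (ha i).1 (ha i).2.1
  have h0 : |β| ≤ M + 1 := by
    have h1 : |β| ≤ |β - b i| + |b i| := by
      have := abs_add_le (β - b i) (b i)
      rwa [sub_add_cancel] at this
    have := (ha i).2.2
    linarith
  have h1 : ∀ j, |a i * b j - a j * β| ≤ 3 * (M : ℤ) ^ 2 := by
    intro j
    have e1 : |a i| = a i := abs_of_nonneg (by have := (ha i).1; omega)
    have e2 : |a j| = a j := abs_of_nonneg (by have := (ha j).1; omega)
    have h2 : |a i * b j - a j * β| ≤ a i * |b j| + a j * |β| := by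
      have := abs_sub (a i * b j) (a j * β)
      rwa [abs_mul, abs_mul, e1, e2] at this
    have h3 : a i * |b j| ≤ M * M :=
      mul_le_mul (ha i).2.1 (ha j).2.2 (abs_nonneg _) (by omega)
    have h4 : a j * |β| ≤ M * (M + 1) :=
      mul_le_mul (ha j).2.1 h0 (abs_nonneg _) (by omega)
    nlinarith
  have h2 : |∏ j, (a i * b j - a j * β)| ≤ (3 * (M : ℤ) ^ 2) ^ k := by
    rw [abs_prod]
    have h3 : ∏ j, |a i * b j - a j * β| ≤ ∏ _j : Fin k, (3 * (M : ℤ) ^ 2) :=
      prod_le_prod (fun j _ => abs_nonneg _) fun j _ => h1 j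
    rwa [prod_const, card_univ, Fintype.card_fin] at h3
  have h3 : |e * a i ^ k| ≤ (3 * (M : ℤ) ^ 2) ^ k := by
    rw [abs_mul, abs_pow, abs_of_nonneg (show (0 : ℤ) ≤ a i by have := (ha i).1; omega)]
    have h4 : a i ^ k ≤ (3 * (M : ℤ) ^ 2) ^ k := by
      refine pow_le_pow_left₀ (by have := (ha i).1; omega) ?_ k
      have := (ha i).2.1
      nlinarith
    have h5 : (0 : ℤ) ≤ a i ^ k := pow_nonneg (by have := (ha i).1; omega) k
    calc |e| * a i ^ k ≤ 1 * a i ^ k := mul_le_mul_of_nonneg_right he h5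
      _ ≤ _ := by rw [one_mul]; exact h4
  have hQ : (0 : ℤ) ≤ (3 * (M : ℤ) ^ 2) ^ k := by positivity
  have hcz : (1 : ℤ) ≤ c := by exact_mod_cast hc
  have h4 : |(c : ℤ) * ∏ j, (a i * b j - a j * β) + e * a i ^ k| ≤
      2 * c * (3 * (M : ℤ) ^ 2) ^ k := by
    refine (abs_add_le _ _).trans ?_
    rw [abs_mul, abs_of_nonneg (show (0 : ℤ) ≤ c by omega)]
    have h5 : (c : ℤ) * |∏ j, (a i * b j - a j * β)| ≤ c * (3 * (M : ℤ) ^ 2) ^ k :=
      mul_le_mul_of_nonneg_left h2 (by omega)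
    nlinarith
  have h6 : (((c : ℤ) * ∏ j, (a i * b j - a j * β) + e * a i ^ k).natAbs : ℤ) ≤
      ((2 * c * (3 * M ^ 2) ^ k : ℕ) : ℤ) := by
    rw [Int.natCast_natAbs]
    push_cast
    exact h4
  exact_mod_cast h6

theorem main (k c M : ℕ) (a b : Fin k → ℤ) (hc : 1 ≤ c)
    (ha : ∀ i, 1 ≤ a i ∧ a i ≤ M ∧ |b i| ≤ M)
    (hne : 2 ≤ c ∧ 1 ≤ k ∨ ∃ i j, a i ≠ a j ∨ b i ≠ b j)
    (t : ℤ) (p : Fin k → ℕ) (n : ℕ) (hp : ∀ i, (p i).Prime ∧ (p i : ℤ) = a i * t + b i)
    (hn : n = c * ∏ i, p i) (hodd : Odd n) (h5 : n % 5 = 2 ∨ n % 5 = 3)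
    (hpow : 2 ^ (n - 1) ≡ 1 [MOD n]) (hfib : n ∣ Nat.fib (n + 1)) :
    |t| ≤ 2 ^ (2 * c * (3 * M ^ 2) ^ k) + M := by
  obtain ⟨i₀⟩ : Nonempty (Fin k) := by
    rcases hne with ⟨-, hk⟩ | ⟨i, -⟩
    · exact ⟨⟨0, hk⟩⟩
    · exact ⟨i⟩
  have hn1 : 1 ≤ n := by
    rcases h5 with h | h <;> omega
  have hnz : (n : ℤ) = c * ∏ j, (p j : ℤ) := by
    rw [hn]
    push_cast
    ring
  have hdvd : ∀ i, p i ∣ n := fun i => by
    rw [hn]
    exact (Finset.dvd_prod_of_mem _ (mem_univ i)).mul_left _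
  have hp2 : ∀ i, p i ≠ 2 := fun i h => by
    have h1 := hdvd i
    rw [h] at h1
    rw [Nat.odd_iff] at hodd
    omega
  have hp5 : ∀ i, p i ≠ 5 := fun i h => by
    have h1 := hdvd i
    rw [h] at h1
    omega
  -- a prime bounded by the constant
  have key : ∃ i, p i ≤ 2 ^ (2 * c * (3 * M ^ 2) ^ k) := by
    by_contra hcon
    push Not at hcon
    have hko : ∀ i, (Pool.Agent.H99.PC.ko (p i) : ℤ) ∣
        c * ∏ j, (a i * b j - a j * (b i - 1)) - a i ^ k := by
      intro i
      have h1 : (Pool.Agent.H99.PC.ko (p i) : ℤ) ∣ (p i : ℤ) - 1 := by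
        have h2 := Pool.Agent.H99.PC.ko_dvd (p i) (hp i).1 (hp2 i)
        have h3 : ((p i - 1 : ℕ) : ℤ) = (p i : ℤ) - 1 := by
          have := (hp i).1.one_le
          push_cast [this]
          ring
        rw [← h3]
        exact_mod_cast h2
      have h2 : (Pool.Agent.H99.PC.ko (p i) : ℤ) ∣ (n : ℤ) - 1 := by
        have h4 : Pool.Agent.H99.PC.ko (p i) ∣ n - 1 := by
          rw [Pool.Agent.H99.PC.ko_dvd_iff]
          exact (Nat.modEq_iff_dvd' Nat.one_le_two_pow).1 (hpow.symm.of_dvd (hdvd i))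
        have h3 : ((n - 1 : ℕ) : ℤ) = (n : ℤ) - 1 := by
          push_cast [hn1]
          ring
        rw [← h3]
        exact_mod_cast h4
      have h3 : (Pool.Agent.H99.PC.ko (p i) : ℤ) ∣ a i * t + (b i - 1) := by
        have h4 : a i * t + (b i - 1) = (p i : ℤ) - 1 := by rw [(hp i).2]; ring
        rw [h4]
        exact h1
      have h4 := cong (c : ℤ) a b (fun j => (p j : ℤ)) t _ (b i - 1) i (fun j => (hp j).2) h3
      rw [← hnz] at h4
      have h5 : (c : ℤ) * ∏ j, (a i * b j - a j * (b i - 1)) - a i ^ k =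
          a i ^ k * ((n : ℤ) - 1) -
            (a i ^ k * (n : ℤ) - c * ∏ j, (a i * b j - a j * (b i - 1))) := by ring
      rw [h5]
      exact dvd_sub (h2.mul_left _) h4
    have hS : ∀ i, (c : ℤ) * ∏ j, (a i * b j - a j * (b i - 1)) - a i ^ k = 0 := by
      intro i
      by_contra hS
      have h1 := ord_bound (p i) _ hS (hko i)
      have h2 := size c M a b hc ha i (b i - 1) (-1) (by norm_num) (by norm_num)
      have h3 : (c : ℤ) * ∏ j, (a i * b j - a j * (b i - 1)) + (-1) * a i ^ k =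
          c * ∏ j, (a i * b j - a j * (b i - 1)) - a i ^ k := by ring
      rw [h3] at h2
      have h4 := h1.trans (Nat.pow_le_pow_right (by norm_num) h2)
      exact absurd h4 (not_le.2 (hcon i))
    have hT : ∀ i, (c : ℤ) * ∏ j, (a i * b j - a j * (b i + 1)) + a i ^ k = 0 := by
      intro i
      by_contra hT
      have h1 : (Pool.Agent.H99.PC.zr (p i) : ℤ) ∣ (n : ℤ) + 1 := by
        have h2 : Pool.Agent.H99.PC.zr (p i) ∣ n + 1 := by
          rw [Pool.Agent.H99.PC.zr_spec (p i) (hp i).1]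
          exact (hdvd i).trans hfib
        exact_mod_cast h2
      rcases Pool.Agent.H99.PC.zr_dvd (p i) (hp i).1 (hp5 i) with h2 | h2
      · -- rank divides p - 1
        have h3 : (Pool.Agent.H99.PC.zr (p i) : ℤ) ∣ a i * t + (b i - 1) := by
          have h4 : a i * t + (b i - 1) = ((p i - 1 : ℕ) : ℤ) := by
            have := (hp i).1.one_le
            push_cast [this]
            rw [(hp i).2]
            ring
          rw [h4]
          exact_mod_cast h2
        have h4 := cong (c : ℤ) a b (fun j => (p j : ℤ)) t _ (b i - 1) i (fun j => (hp j).2) h3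
        rw [← hnz] at h4
        have h5 : (2 : ℤ) * a i ^ k = a i ^ k * ((n : ℤ) + 1) -
            (a i ^ k * (n : ℤ) - c * ∏ j, (a i * b j - a j * (b i - 1))) -
              (c * ∏ j, (a i * b j - a j * (b i - 1)) - a i ^ k) := by ring
        have h6 : (Pool.Agent.H99.PC.zr (p i) : ℤ) ∣ 2 * a i ^ k := by
          rw [h5, hS i, sub_zero]
          exact dvd_sub (h1.mul_left _) h4
        have hpos : (0 : ℤ) < a i ^ k := pow_pos (by have := (ha i).1; omega) k
        have h7 := rank_bound (p i) (hp i).1 _ (by positivity) h6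
        have h8 : (2 * a i ^ k).natAbs ≤ 2 * c * (3 * M ^ 2) ^ k := by
          have e1 : a i ^ k ≤ (3 * (M : ℤ) ^ 2) ^ k := by
            refine pow_le_pow_left₀ (by have := (ha i).1; omega) ?_ k
            have e2 := (ha i).2.1
            have e3 := (ha i).1
            nlinarith
          have e4 : (1 : ℤ) ≤ c := by exact_mod_cast hc
          have e5 : (((2 : ℤ) * a i ^ k).natAbs : ℤ) ≤ ((2 * c * (3 * M ^ 2) ^ k : ℕ) : ℤ) := by
            rw [Int.natCast_natAbs, abs_of_nonneg (by positivity)]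
            push_cast
            nlinarith
          exact_mod_cast e5
        have h9 := h7.trans (Nat.pow_le_pow_right (by norm_num) h8)
        exact absurd h9 (not_le.2 (hcon i))
      · -- rank divides p + 1
        have h3 : (Pool.Agent.H99.PC.zr (p i) : ℤ) ∣ a i * t + (b i + 1) := by
          have h4 : a i * t + (b i + 1) = ((p i + 1 : ℕ) : ℤ) := by
            push_cast
            rw [(hp i).2]
            ring
          rw [h4]
          exact_mod_cast h2
        have h4 := cong (c : ℤ) a b (fun j => (p j : ℤ)) t _ (b i + 1) i (fun j => (hp j).2) h3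
        rw [← hnz] at h4
        have h5 : (c : ℤ) * ∏ j, (a i * b j - a j * (b i + 1)) + a i ^ k =
            a i ^ k * ((n : ℤ) + 1) -
              (a i ^ k * (n : ℤ) - c * ∏ j, (a i * b j - a j * (b i + 1))) := by ring
        have h6 : (Pool.Agent.H99.PC.zr (p i) : ℤ) ∣
            c * ∏ j, (a i * b j - a j * (b i + 1)) + a i ^ k := by
          rw [h5]
          exact dvd_sub (h1.mul_left _) h4
        have h7 := rank_bound (p i) (hp i).1 _ hT h6
        have h8 := size c M a b hc ha i (b i + 1) 1 (by norm_num) (by norm_num)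
        rw [one_mul] at h8
        have h9 := h7.trans (Nat.pow_le_pow_right (by norm_num) h8)
        exact absurd h9 (not_le.2 (hcon i))
    have hr := rigid (c : ℤ) a b (by exact_mod_cast hc) (fun i => (ha i).1) i₀ hS hT
    rcases hne with ⟨h, -⟩ | ⟨i, j, h⟩
    · have := hr.1
      have h2 : (2 : ℤ) ≤ c := by exact_mod_cast h
      omega
    · have := hr.2 i j
      tauto
  obtain ⟨i, hi⟩ := key
  have h1 : ((p i : ℕ) : ℤ) ≤ 2 ^ (2 * c * (3 * M ^ 2) ^ k) := by exact_mod_cast hi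
  have h2 := (hp i).2
  have h3 := (ha i).1
  have h4 := (ha i).2.2
  have h5' : (0 : ℤ) ≤ p i := by positivity
  rw [abs_le] at h4 ⊢
  constructor
  · by_contra hlt
    push Not at hlt
    have h6 : (0 : ℤ) ≤ 2 ^ (2 * c * (3 * M ^ 2) ^ k) := by positivity
    nlinarith
  · by_contra hlt
    push Not at hlt
    have h6 : (0 : ℤ) ≤ 2 ^ (2 * c * (3 * M ^ 2) ^ k) := by positivity
    nlinarith

end Pool.Agent.H49.PSW
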